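import Mathlib

set_option autoImplicit false

/-!
A latin square of order 6 (that is, a 2-dimensional latin hypercube) which has a
5-multiplex but no 5-plex.
-/

namespace Pool.Agent.Results.MP_a6ecd6_co.OrderSix

/-- `Q : [n]^d → [n]` is a `d`-dimensional latin hypercube of order `n`: if all
coordinates but the `i`-th are fixed (to those of `x`), then letting the `i`-th coordinate
range over `[n]` produces every symbol exactly once. -/
def IsLatinHypercube {d n : ℕ} (Q : (Fin d → Fin n) → Fin n) : Prop :=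
  ∀ (i : Fin d) (x : Fin d → Fin n),
    Function.Bijective (fun a : Fin n => Q (Function.update x i a))

/-- `K` is a `k`-multiplex of `Q`: a multiset of `k * n` cells such that each hyperplane
`{x | x i = a}` contains exactly `k` elements of `K` and each symbol `s` is `Q x` for exactly
`k` elements `x` of `K`, always counted with multiplicity. -/
def IsMultiplex {d n : ℕ} (k : ℕ) (Q : (Fin d → Fin n) → Fin n)
    (K : Multiset (Fin d → Fin n)) : Prop :=
  Multiset.card K = k * n ∧
  (∀ (i : Fin d) (a : Fin n), K.countP (fun x => x i = a) = k) ∧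
  (∀ s : Fin n, K.countP (fun x => Q x = s) = k)

/-- `K` is a `k`-plex of `Q`: a `k`-multiplex in which no cell is repeated. -/
def IsPlex {d n : ℕ} (k : ℕ) (Q : (Fin d → Fin n) → Fin n)
    (K : Multiset (Fin d → Fin n)) : Prop :=
  IsMultiplex k Q K ∧ K.Nodup

/-- The latin square, as a table. -/
def table : Fin 6 → Fin 6 → Fin 6 :=
  ![![0, 1, 2, 3, 4, 5],
    ![1, 0, 3, 2, 5, 4],
    ![2, 4, 0, 5, 1, 3],
    ![3, 5, 1, 4, 0, 2],
    ![4, 2, 5, 1, 3, 0],
    ![5, 3, 4, 0, 2, 1]]

/-- The latin square, as a function on cells. -/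
def square : (Fin 2 → Fin 6) → Fin 6 := fun x => table (x 0) (x 1)

theorem square_latin : IsLatinHypercube square := by
  have h0 : ∀ c : Fin 6, Function.Injective (fun a : Fin 6 => table a c) := by
    unfold Function.Injective; decide
  have h1 : ∀ r : Fin 6, Function.Injective (fun a : Fin 6 => table r a) := by
    unfold Function.Injective; decide
  intro i x
  rw [Fintype.bijective_iff_injective_and_card]
  refine ⟨?_, rfl⟩
  fin_cases i
  · have : (fun a : Fin 6 => square (Function.update x ((fun i => i) ⟨0, by decide⟩ : Fin 2) a))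
        = fun a : Fin 6 => table a (x 1) := by
      funext a
      simp [square]
    exact this ▸ h0 (x 1)
  · have : (fun a : Fin 6 => square (Function.update x ((fun i => i) ⟨1, by decide⟩ : Fin 2) a))
        = fun a : Fin 6 => table (x 0) a := by
      funext a
      simp [square]
    exact this ▸ h1 (x 0)

/-- The 30 cells (with repetitions) of the 5-multiplex. -/
def cells : Multiset (Fin 2 → Fin 6) :=
  {![0,0], ![0,1], ![0,2], ![1,1], ![1,3], ![1,4], ![2,3], ![2,4], ![2,5],
   ![3,2], ![3,3], ![3,5], ![4,0], ![4,4], ![4,5], ![5,0], ![5,1], ![5,2],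
   ![0,0], ![0,1], ![1,0], ![1,1], ![2,3], ![2,5], ![3,3], ![3,5], ![4,2], ![4,4],
   ![5,2], ![5,4]}

theorem cells_multiplex : IsMultiplex 5 square cells := by
  refine ⟨by decide, by decide, by decide⟩

set_option synthInstance.maxSize 100000 in
set_option synthInstance.maxHeartbeats 4000000 in
/-- The square has no transversal. -/
theorem no_transversal :
    ∀ c0 : Fin 6, ∀ c1 : Fin 6, (c0 ≠ c1 ∧ table 0 c0 ≠ table 1 c1) →
    ∀ c2 : Fin 6, (c0 ≠ c2 ∧ c1 ≠ c2 ∧ table 0 c0 ≠ table 2 c2 ∧ table 1 c1 ≠ table 2 c2) →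
    ∀ c3 : Fin 6, (c0 ≠ c3 ∧ c1 ≠ c3 ∧ c2 ≠ c3 ∧ table 0 c0 ≠ table 3 c3 ∧
      table 1 c1 ≠ table 3 c3 ∧ table 2 c2 ≠ table 3 c3) →
    ∀ c4 : Fin 6, (c0 ≠ c4 ∧ c1 ≠ c4 ∧ c2 ≠ c4 ∧ c3 ≠ c4 ∧ table 0 c0 ≠ table 4 c4 ∧
      table 1 c1 ≠ table 4 c4 ∧ table 2 c2 ≠ table 4 c4 ∧ table 3 c3 ≠ table 4 c4) →
    ∀ c5 : Fin 6, ¬ (c0 ≠ c5 ∧ c1 ≠ c5 ∧ c2 ≠ c5 ∧ c3 ≠ c5 ∧ c4 ≠ c5 ∧
      table 0 c0 ≠ table 5 c5 ∧
      table 1 c1 ≠ table 5 c5 ∧ table 2 c2 ≠ table 5 c5 ∧ table 3 c3 ≠ table 5 c5 ∧
      table 4 c4 ≠ table 5 c5) := by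
  decide +kernel

/-- Every row, column and symbol class of the board has six cells. -/
theorem card_coord (i : Fin 2) (a : Fin 6) :
    (Finset.univ.filter (fun x : Fin 2 → Fin 6 => x i = a)).card = 6 := by
  revert i a
  decide

theorem card_symbol (s : Fin 6) :
    (Finset.univ.filter (fun x : Fin 2 → Fin 6 => square x = s)).card = 6 := by
  revert s
  decide

theorem card_compl {p : (Fin 2 → Fin 6) → Prop} [DecidablePred p]
    {K : Multiset (Fin 2 → Fin 6)} (hK : K.Nodup) (h5 : K.countP p = 5)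
    (h6 : (Finset.univ.filter p).card = 6) :
    ((Finset.univ.filter (fun x => x ∉ K)).filter p).card = 1 := by
  classical
  have hS : ((Finset.univ.filter (fun x => x ∈ K)).filter p).card = 5 := by
    have : (Finset.univ.filter (fun x => x ∈ K)).filter p = (K.toFinset).filter p := by
      ext x; simp
    rw [this, ← h5, Multiset.countP_eq_card_filter]
    have h2 : (K.toFinset).filter p = (K.filter p).toFinset := by
      ext x; simp
    rw [h2, Multiset.toFinset_card_of_nodup (hK.filter p)]
  have hsum : (Finset.univ.filter p).card =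
      ((Finset.univ.filter (fun x => x ∈ K)).filter p).card +
      ((Finset.univ.filter (fun x => x ∉ K)).filter p).card := by
    rw [Finset.filter_filter, Finset.filter_filter]
    have e1 : Finset.univ.filter (fun x => x ∈ K ∧ p x) =
        (Finset.univ.filter p).filter (fun x => x ∈ K) := by
      ext x; simp [and_comm]
    have e2 : Finset.univ.filter (fun x => x ∉ K ∧ p x) =
        (Finset.univ.filter p).filter (fun x => ¬ x ∈ K) := by
      ext x; simp [and_comm]
    rw [e1, e2, Finset.card_filter_add_card_filter_not]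
  omega

theorem no_plex : ¬ ∃ K : Multiset (Fin 2 → Fin 6), IsPlex 5 square K := by
  classical
  rintro ⟨K, ⟨-, hcoord, hsym⟩, hnd⟩
  set T : Finset (Fin 2 → Fin 6) := Finset.univ.filter (fun x => x ∉ K) with hT
  have hc : ∀ (i : Fin 2) (a : Fin 6), (T.filter (fun x => x i = a)).card = 1 :=
    fun i a => card_compl hnd (hcoord i a) (card_coord i a)
  have hs : ∀ s : Fin 6, (T.filter (fun x => square x = s)).card = 1 :=
    fun s => card_compl hnd (hsym s) (card_symbol s)
  have hex : ∀ a : Fin 6, ∃ x, x ∈ T ∧ x 0 = a := by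
    intro a
    have h1 := hc 0 a
    obtain ⟨x, hx⟩ := Finset.card_pos.mp (by rw [h1]; exact Nat.one_pos)
    rw [Finset.mem_filter] at hx
    exact ⟨x, hx.1, hx.2⟩
  choose f hfT hf0 using hex
  have hne : ∀ a b : Fin 6, a ≠ b → f a ≠ f b := by
    intro a b hab h
    apply hab
    rw [← hf0 a, ← hf0 b, h]
  have hcol : ∀ a b : Fin 6, a ≠ b → f a 1 ≠ f b 1 := by
    intro a b hab h
    have h1 := hc 1 (f a 1)
    rw [Finset.card_eq_one] at h1
    obtain ⟨z, hz⟩ := h1
    have ha : f a ∈ T.filter (fun x => x 1 = f a 1) := by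
      rw [Finset.mem_filter]; exact ⟨hfT a, rfl⟩
    have hb : f b ∈ T.filter (fun x => x 1 = f a 1) := by
      rw [Finset.mem_filter]; exact ⟨hfT b, h.symm⟩
    rw [hz, Finset.mem_singleton] at ha hb
    exact hne a b hab (ha.trans hb.symm)
  have hsymb : ∀ a b : Fin 6, a ≠ b → table a (f a 1) ≠ table b (f b 1) := by
    intro a b hab h
    have hsa : square (f a) = table a (f a 1) := by
      unfold square; rw [hf0 a]
    have hsb : square (f b) = table b (f b 1) := by
      unfold square; rw [hf0 b]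
    have h1 := hs (square (f a))
    rw [Finset.card_eq_one] at h1
    obtain ⟨z, hz⟩ := h1
    have ha : f a ∈ T.filter (fun x => square x = square (f a)) := by
      rw [Finset.mem_filter]; exact ⟨hfT a, rfl⟩
    have hb : f b ∈ T.filter (fun x => square x = square (f a)) := by
      rw [Finset.mem_filter]; exact ⟨hfT b, by rw [hsa, hsb, h]⟩
    rw [hz, Finset.mem_singleton] at ha hb
    exact hne a b hab (ha.trans hb.symm)
  refine no_transversal (f 0 1) (f 1 1) ⟨hcol _ _ (by decide), hsymb _ _ (by decide)⟩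
    (f 2 1) ⟨hcol _ _ (by decide), hcol _ _ (by decide), hsymb _ _ (by decide),
      hsymb _ _ (by decide)⟩
    (f 3 1) ⟨hcol _ _ (by decide), hcol _ _ (by decide), hcol _ _ (by decide),
      hsymb _ _ (by decide), hsymb _ _ (by decide), hsymb _ _ (by decide)⟩
    (f 4 1) ⟨hcol _ _ (by decide), hcol _ _ (by decide), hcol _ _ (by decide),
      hcol _ _ (by decide), hsymb _ _ (by decide), hsymb _ _ (by decide),
      hsymb _ _ (by decide), hsymb _ _ (by decide)⟩
    (f 5 1) ⟨hcol _ _ (by decide), hcol _ _ (by decide), hcol _ _ (by decide),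
      hcol _ _ (by decide), hcol _ _ (by decide), hsymb _ _ (by decide),
      hsymb _ _ (by decide), hsymb _ _ (by decide), hsymb _ _ (by decide),
      hsymb _ _ (by decide)⟩

/-- There is a latin square of order 6 (a 2-dimensional latin hypercube) that has a
5-multiplex but no 5-plex. Here `5 ≤ 6 ^ (2 - 1)`. -/
theorem result :
    ∃ Q : (Fin 2 → Fin 6) → Fin 6, IsLatinHypercube Q ∧
      (∃ K : Multiset (Fin 2 → Fin 6), IsMultiplex 5 Q K) ∧
      ¬ ∃ K : Multiset (Fin 2 → Fin 6), IsPlex 5 Q K :=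
  ⟨square, square_latin, ⟨cells, cells_multiplex⟩, no_plex⟩

end Pool.Agent.Results.MP_a6ecd6_co.OrderSix
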